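import Pool.Agent.Y833.GL.Main

/-!
# MP_0394fb_al, Q1: the classifying space functor induces no functor of homotopy categories

For every Grothendieck coherator `C` and every extension `F : C → Top` of the disks there is no
functor `R` from the localisation of `∞`-`C`-groupoids at the weak equivalences to the localisation
of `Top` at the weak homotopy equivalences with `R ∘ Q ≅ Q ∘ |·|`. In particular `|·|` does not
carry weak equivalences to weak equivalences: already the first clause of part (i) of the homotopy
hypothesis in its precise form fails, and the functors which part (ii) compares for `|·|` do not
exist.

Idea. Let `BA` be the `∞`-`C`-groupoid of cocycles of the starting files, for `A = ℤ`; its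
classifying space is a point. The `∞`-`C`-groupoid `W = Hom(F(-), ℝ)` has an action of `ℤ` by
translations, and any two parallel cells of `W` are joined by a cell. Its homotopy quotient
`W_ℤ(S)` (pairs of a cocycle `c` on the `0`-cells of `S` and of maps `φ_p : F(S) → ℝ`, one for each
`0`-cell `p`, with `φ_p = φ_q + c(p, q)`) is an `∞`-`C`-groupoid, and the projection `W_ℤ → BA` has
the lifting property for all parallel pairs of cells, so it is a weak equivalence. The map
`|W_ℤ| → ℝ/ℤ` shows that the loop in `|W_ℤ|` given by the standard path from `0` to `1` is not null
homotopic, whereas `|BA|` is a point. Free loops form a functor on `Top` which inverts the weak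
homotopy equivalences and which distinguishes the two.

The definitions are those of the starting files `Pool/Agent/TH24/GlobDefs.lean`, `GlobGpd.lean` and
`GlobTop.lean`.
-/

set_option autoImplicit false

open CategoryTheory

namespace Pool.Agent.Results.MP_0394fb_al.NoInducedFunctor

open Pool.Agent.TH24.Glob

/-- **For every coherator and every extension of the disks, the classifying space functor induces
no functor between the localised categories.** -/
theorem result {C : Type} [SmallCategory C] (G : Globe C) (hG : IsCoherator G) (κ : Units G)
    (F : Mor G disks) :
    ¬ ∃ R : (weakEq κ : MorphismProperty (InfGrpd G)).Localization ⥤ weakHomotopyEq.Localization,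
      Nonempty ((weakEq κ : MorphismProperty (InfGrpd G)).Q ⋙ R ≅
        classifying F ⋙ weakHomotopyEq.Q) :=
  (Pool.Agent.Y833.GL.main hG κ F).2

end Pool.Agent.Results.MP_0394fb_al.NoInducedFunctor
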